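import Pool.Agent.W500.CS.Stm

set_option autoImplicit false

open MeasureTheory Polynomial Metric Set Filter Topology

namespace Pool.Agent.W605.CQ.T

open Pool.Agent.W500.CS

theorem exists_common {α : Type*} (P : α → ℝ → Prop)
    (hP : ∀ x a b, P x a → 0 < b → b ≤ a → P x b) (t : Finset α)
    (h : ∀ x ∈ t, ∃ a, 0 < a ∧ P x a) : ∃ a, 0 < a ∧ ∀ x ∈ t, P x a := by
  classical
  induction t using Finset.induction_on with
  | empty => exact ⟨1, one_pos, fun x hx => absurd hx (Finset.notMem_empty x)⟩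
  | insert x s hx ih =>
    obtain ⟨a, ha, hPa⟩ := h x (Finset.mem_insert_self x s)
    obtain ⟨b, hb, hPb⟩ := ih fun y hy => h y (Finset.mem_insert_of_mem hy)
    refine ⟨min a b, lt_min ha hb, fun y hy => ?_⟩
    rcases Finset.mem_insert.mp hy with rfl | hy
    · exact hP _ _ _ hPa (lt_min ha hb) (min_le_left a b)
    · exact hP _ _ _ (hPb y hy) (lt_min ha hb) (min_le_right a b)

theorem exists_angle (s : ℂ) : ∃ φ ∈ Icc (0 : ℝ) (2 * Real.pi),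
    s = (‖s‖ : ℂ) * Complex.exp (Complex.I * (φ : ℂ)) := by
  have h0 := Complex.norm_mul_exp_arg_mul_I s
  by_cases h : 0 ≤ s.arg
  · refine ⟨s.arg, ⟨h, ?_⟩, ?_⟩
    · have := Complex.arg_le_pi s
      have := Real.pi_pos
      linarith
    · rw [mul_comm Complex.I]
      exact h0.symm
  · refine ⟨s.arg + 2 * Real.pi, ⟨?_, ?_⟩, ?_⟩
    · have := Complex.neg_pi_lt_arg s
      have := Real.pi_pos
      linarith
    · linarith [not_le.mp h]
    · have : Complex.I * ((s.arg + 2 * Real.pi : ℝ) : ℂ) =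
          (s.arg : ℂ) * Complex.I + 2 * Real.pi * Complex.I := by
        push_cast; ring
      rw [this, Complex.exp_add, Complex.exp_two_pi_mul_I, mul_one]
      exact h0.symm

theorem main : S_STRIP → S_T := by
  intro hS r R U B hR hU hD hB
  classical
  choose δ n γ ε hδ hε h1 h2 h3 using hS r R U B hR hU hD hB
  obtain ⟨t, -, ht⟩ := (isCompact_Icc : IsCompact (Icc (0 : ℝ) (2 * Real.pi))).elim_nhds_subcover
    (fun φ₀ => Ioo (φ₀ - δ φ₀) (φ₀ + δ φ₀))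
    (fun φ₀ _ => Ioo_mem_nhds (by linarith [hδ φ₀]) (by linarith [hδ φ₀]))
  let I : Type := Σ φ : t, Fin (n φ.1)
  let e : Fin (Fintype.card I) ≃ I := (Fintype.equivFin I).symm
  obtain ⟨ε0, hε0, hεt⟩ := exists_common (fun (φ : ℝ) a => a ≤ ε φ)
    (fun x a b h1 _ h2 => h2.trans h1) t (fun x _ => ⟨ε x, hε x, le_rfl⟩)
  refine ⟨Fintype.card I, fun k => γ (e k).1.1 (e k).2, ε0, hε0, ?_, ?_, ?_⟩
  · intro k
    exact h1 (e k).1.1 (e k).2
  · intro k q hq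
    exact h2 (e k).1.1 (e k).2 q ⟨hq.1, hq.2.trans_le (hεt _ (e k).1.2)⟩
  · intro ε' hε' hle
    obtain ⟨ρ, hρ, hρt⟩ := exists_common (fun (φ₀ : ℝ) ρ => ∀ x φ : ℝ, 0 < x → x < ρ →
        |φ - φ₀| < δ φ₀ → ¬ DifferentiableAt ℝ U ((x : ℂ) * Complex.exp (Complex.I * φ)) →
        ∃ k, ∃ q ∈ Ioo 0 ε', (x : ℂ) * Complex.exp (Complex.I * φ) = γ φ₀ k q)
      (fun φ₀ a b h _ hba x φ hx hxb => h x φ hx (hxb.trans_le hba)) t
      (fun φ₀ hφ₀ => h3 φ₀ ε' hε' (hle.trans (hεt φ₀ hφ₀)))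
    refine ⟨ρ, hρ, fun s hs0 hsρ hnd => ?_⟩
    obtain ⟨φ, hφ, hs⟩ := exists_angle s
    have hφt := ht hφ
    rw [mem_iUnion₂] at hφt
    obtain ⟨φ₀, hφ₀, hφφ⟩ := hφt
    have habs : |φ - φ₀| < δ φ₀ := by
      rw [abs_lt]
      constructor <;> linarith [hφφ.1, hφφ.2]
    have hnd' : ¬ DifferentiableAt ℝ U ((‖s‖ : ℂ) * Complex.exp (Complex.I * (φ : ℂ))) := by
      rw [← hs]; exact hnd
    obtain ⟨k, q, hq, hk⟩ := hρt φ₀ hφ₀ ‖s‖ φ hs0 hsρ habs hnd'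
    obtain ⟨k', hk'⟩ : ∃ k', e k' = ⟨⟨φ₀, hφ₀⟩, k⟩ := ⟨_, e.apply_symm_apply _⟩
    refine ⟨k', q, hq, ?_⟩
    change s = γ (e k').1.1 (e k').2 q
    rw [hk']
    exact hs.trans hk

end Pool.Agent.W605.CQ.T
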